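import Pool.Agent.Tam.Cut

/-!
# Equal consecutive values in the Tammes problem (MP_97a6ed_co)

`a n` (`Pool/Agent/Tam/Defs.lean`) is the largest angle `d` such that `n` points of the unit sphere
are at mutual angles at least `d`.  We prove `a n < a (n - k)` for all `k ≥ 100 √n` (with
`n - k ≥ 2`), so that the set `E` of the `n` with `a n = a (n - 1)` contains no `k` consecutive
integers ending at `n`, and the number of elements of `{3, …, N} \ E` is at least `√N / 101 - 2`.

Proof.  Take an optimal configuration of `n` points, at minimal distance `s`, and an axis which is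
in no plane spanned by two of the points.  Remove the `O(1/s) = O(√n)` points which are within
`s/2` (in the direction orthogonal to the half plane) of a half great circle ending at the poles.
Two remaining points at distance `s` are not separated by the cut, so they have longitudes
`0 < φ, φ' < 2π` with `0 < |φ - φ'| < π`, and multiplying all longitudes by `1 + ε` increases all
the distances which are equal to `s`.
-/

namespace Pool.Agent.Results.MP_97a6ed_co.Runs

open Tam Real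

lemma small {n : ℕ} {c : ℝ} (h : Conf n c) (hn : 3375 < n) : 31 / 32 < c := by
  classical
  obtain ⟨X, hX, h1, h2⟩ := h
  set T : Finset (ℤ × ℤ × ℤ) := Finset.Icc (-7) 7 ×ˢ Finset.Icc (-7) 7 ×ˢ Finset.Icc (-7) 7 with hT
  set f : V → ℤ × ℤ × ℤ := fun x => (⌊7 * x 0⌋, ⌊7 * x 1⌋, ⌊7 * x 2⌋) with hf
  have hcoord : ∀ t : ℝ, t ^ 2 ≤ 1 → ⌊7 * t⌋ ∈ Finset.Icc (-7 : ℤ) 7 := by
    intro t ht
    have h3 : |t| ≤ 1 := by
      rw [← sq_abs] at ht
      nlinarith [abs_nonneg t]
    rw [abs_le] at h3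
    rw [Finset.mem_Icc]
    constructor
    · rw [Int.le_floor]; push_cast; linarith
    · rw [← Int.lt_add_one_iff, Int.floor_lt]; push_cast; linarith
  have hmaps : ∀ x ∈ X, f x ∈ T := by
    intro x hx
    have hx1 := (norm_one_iff x).mp (h1 x hx)
    rw [hT, hf]
    simp only [Finset.mem_product]
    exact ⟨hcoord _ (by nlinarith [sq_nonneg (x 1), sq_nonneg (x 2)]),
      hcoord _ (by nlinarith [sq_nonneg (x 0), sq_nonneg (x 2)]),
      hcoord _ (by nlinarith [sq_nonneg (x 0), sq_nonneg (x 1)])⟩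
  have hTc : T.card ≤ 3375 := by
    have h15 : (Finset.Icc (-7 : ℤ) 7).card = 15 := by rw [Int.card_Icc]; rfl
    rw [hT, Finset.card_product, Finset.card_product, h15]
  clear_value T
  have hcard : T.card < X.card := by
    rw [hX]; exact lt_of_le_of_lt hTc hn
  obtain ⟨x, hx, y, hy, hxy, he⟩ := Finset.exists_ne_map_eq_of_card_lt_of_maps_to hcard hmaps
  have hi := h2 x hx y hy hxy
  have nx := (norm_one_iff x).mp (h1 x hx)
  have ny := (norm_one_iff y).mp (h1 y hy)
  rw [inner_eq] at hi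
  simp only [hf, Prod.mk.injEq] at he
  have key : ∀ t t' : ℝ, ⌊7 * t⌋ = ⌊7 * t'⌋ → (t - t') ^ 2 < 1 / 49 := by
    intro t t' h
    have h3 := Int.abs_sub_lt_one_of_floor_eq_floor h
    rw [← mul_sub, abs_mul, abs_of_pos (by norm_num : (0:ℝ) < 7)] at h3
    rw [← sq_abs]
    nlinarith [abs_nonneg (t - t')]
  have k0 := key _ _ he.1
  have k1 := key _ _ he.2.1
  have k2 := key _ _ he.2.2
  nlinarith

/-- The main inequality. -/
theorem a_lt_of_le {n k : ℕ} (h2 : 2 ≤ n - k) (hk : 100 * √(n : ℝ) ≤ k) : a n < a (n - k) := by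
  classical
  have hkn : k < n := by omega
  have hn1 : (1 : ℝ) ≤ n := by
    have : 1 ≤ n := by omega
    exact_mod_cast this
  have hsq : √(n : ℝ) ^ 2 = n := Real.sq_sqrt (by linarith)
  have hs1 : 1 ≤ √(n : ℝ) := by rw [Real.one_le_sqrt]; exact hn1
  have hkn' : (k : ℝ) < n := by exact_mod_cast hkn
  have hs100 : 100 < √(n : ℝ) := by nlinarith
  have hn4 : 10000 < n := by
    have : (10000 : ℝ) < n := by nlinarith
    exact_mod_cast this
  have hn2 : 2 ≤ n := by omega
  have hn0 : (0 : ℝ) < n := by linarith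
  have hc0lt : (1 - 1 / (18 * (n : ℝ))) < 1 := by
    have : 0 < 1 / (18 * (n : ℝ)) := by positivity
    linarith
  obtain ⟨c, hc, hconf, hopt⟩ := exists_opt hn2 (conf_sqrt (by omega : 1 ≤ n)) hc0lt
  have hc1 : c < 1 := by linarith
  have hcs := small hconf (by omega)
  set s : ℝ := √(2 - 2 * c) with hs
  have hspos : 0 < s := Real.sqrt_pos.mpr (by linarith)
  have hs2 : s ^ 2 = 2 - 2 * c := Real.sq_sqrt (by linarith)
  have hs4 : s ≤ 1 / 4 := by
    by_contra hcon
    push Not at hcon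
    nlinarith
  -- lower bound of `s`
  have hs3 : 1 / s ≤ 3 * √(n : ℝ) := by
    have h3 : 1 / (9 * (n : ℝ)) ≤ s ^ 2 := by
      rw [hs2]
      have : 1 / (9 * (n : ℝ)) = 2 * (1 / (18 * (n : ℝ))) := by field_simp; norm_num
      rw [this]; linarith
    have h4 : 1 ≤ (3 * √(n : ℝ) * s) ^ 2 := by
      have e : (3 * √(n : ℝ) * s) ^ 2 = 9 * n * s ^ 2 := by
        rw [mul_pow, mul_pow, hsq]; norm_num
      rw [e]
      rw [div_le_iff₀ (by positivity)] at h3
      linarith
    have h5 : 1 ≤ 3 * √(n : ℝ) * s := by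
      by_contra hcon
      push Not at hcon
      have : 0 ≤ 3 * √(n : ℝ) * s := by positivity
      nlinarith
    rw [div_le_iff₀ hspos]; exact h5
  obtain ⟨X, hX, g1, g2, g3⟩ := exists_generic hconf
  set R : Finset V := X.filter (fun x => near s x) with hR
  set Y : Finset V := X.filter (fun x => ¬ near s x) with hY
  have hRY : R.card + Y.card = n := by
    rw [hR, hY, ← hX]
    exact Finset.card_filter_add_card_filter_not (fun x => near s x)
  have hRc : (R.card : ℝ) ≤ 24 / s + 16 :=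
    card_near (fun x hx => g1 x (Finset.mem_filter.mp hx).1)
      (fun x hx y hy => g2 x (Finset.mem_filter.mp hx).1 y (Finset.mem_filter.mp hy).1)
      hspos hs2 hs4 (fun x hx => (Finset.mem_filter.mp hx).2)
  have hRk : R.card ≤ k := by
    have h3 : 24 / s = 24 * (1 / s) := by ring
    have : (R.card : ℝ) ≤ k := by
      rw [h3] at hRc
      nlinarith
    exact_mod_cast this
  obtain ⟨c', hc', hconf'⟩ := improve (X := Y) (c := c) (s := s)
    (fun x hx => g1 x (Finset.mem_filter.mp hx).1)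
    (fun x hx y hy => g2 x (Finset.mem_filter.mp hx).1 y (Finset.mem_filter.mp hy).1)
    (fun x hx y hy => g3 x (Finset.mem_filter.mp hx).1 y (Finset.mem_filter.mp hy).1)
    hspos hs2 (by linarith) (fun x hx => (Finset.mem_filter.mp hx).2)
  exact a_lt hn2 h2 hconf hopt (hconf'.mono_card (by omega)) hc'

/-- The set `E` of the problem. -/
def E : Set ℕ := {n | 3 ≤ n ∧ a n = a (n - 1)}

lemma exists_notMem {n k : ℕ} (h2 : 2 ≤ n - k) (hk : 100 * √(n : ℝ) ≤ k) :
    ∃ m, n - k < m ∧ m ≤ n ∧ m ∉ E := by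
  by_contra hcon
  push Not at hcon
  have h : ∀ j, j ≤ k → a (n - k + j) = a (n - k) := by
    intro j
    induction j with
    | zero => intro _; rfl
    | succ j ih =>
      intro hj
      have h1 := ih (by omega)
      have h3 := hcon (n - k + (j + 1)) (by omega) (by omega)
      rw [h3.2, ← h1]
      congr 1
  have h3 := h k le_rfl
  have h4 := a_lt_of_le h2 hk
  rw [show n - k + k = n by omega] at h3
  linarith

lemma count (N : ℕ) : √(N : ℝ) / 101 - 2 ≤ (({m | 3 ≤ m ∧ m ≤ N ∧ m ∉ E} : Set ℕ).ncard : ℝ) := by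
  classical
  by_cases hN0 : N = 0
  · subst hN0
    simp only [Nat.cast_zero, Real.sqrt_zero]
    have : (0 : ℝ) ≤ (({m | 3 ≤ m ∧ m ≤ 0 ∧ m ∉ E} : Set ℕ).ncard : ℝ) := Nat.cast_nonneg _
    linarith
  have hN1 : (1 : ℝ) ≤ N := by
    have : 1 ≤ N := by omega
    exact_mod_cast this
  have hs1 : 1 ≤ √(N : ℝ) := by rw [Real.one_le_sqrt]; exact hN1
  have hsq : √(N : ℝ) ^ 2 = N := Real.sq_sqrt (by linarith)
  set K : ℕ := ⌈100 * √(N : ℝ)⌉₊ with hK
  have hK1 : 100 * √(N : ℝ) ≤ K := Nat.le_ceil _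
  have hK2 : (K : ℝ) < 100 * √(N : ℝ) + 1 := Nat.ceil_lt_add_one (by positivity)
  have hKpos : 0 < K := by
    have : (0 : ℝ) < K := by linarith
    exact_mod_cast this
  set J : ℕ := (N - 2) / K with hJ
  -- one element in each block
  have hblock : ∀ j : Fin J, ∃ m, N - ((j : ℕ) + 1) * K < m ∧ m ≤ N - (j : ℕ) * K ∧ m ∉ E := by
    intro j
    have hj : (j : ℕ) + 1 ≤ J := j.2
    have h1 : ((j : ℕ) + 1) * K ≤ N - 2 :=
      (Nat.mul_le_mul_right K hj).trans (Nat.div_mul_le_self _ _)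
    have h1' : (j : ℕ) * K + K ≤ N - 2 := by rw [← Nat.succ_mul]; exact h1
    have h2 : N - ((j : ℕ) + 1) * K = (N - (j : ℕ) * K) - K := by
      rw [Nat.succ_mul]; omega
    rw [h2]
    apply exists_notMem
    · omega
    · refine le_trans ?_ hK1
      have : ((N - (j : ℕ) * K : ℕ) : ℝ) ≤ N := by exact_mod_cast Nat.sub_le _ _
      have := Real.sqrt_le_sqrt this
      linarith
  choose f hf1 hf2 hf3 using hblock
  have hinj : Function.Injective f := by
    intro i j hij
    by_contra hne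
    rcases lt_or_gt_of_ne (fun h => hne (Fin.ext h) : (i : ℕ) ≠ (j : ℕ)) with h | h
    · have h1 := hf1 i
      have h2 := hf2 j
      have h3 : ((i : ℕ) + 1) * K ≤ (j : ℕ) * K := Nat.mul_le_mul_right K h
      rw [hij] at h1
      omega
    · have h1 := hf1 j
      have h2 := hf2 i
      have h3 : ((j : ℕ) + 1) * K ≤ (i : ℕ) * K := Nat.mul_le_mul_right K h
      rw [← hij] at h1
      omega
  have hfin : ({m | 3 ≤ m ∧ m ≤ N ∧ m ∉ E} : Set ℕ).Finite :=
    (Set.finite_Icc 3 N).subset (fun m hm => ⟨hm.1, hm.2.1⟩)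
  have hcard : J ≤ ({m | 3 ≤ m ∧ m ≤ N ∧ m ∉ E} : Set ℕ).ncard := by
    have h1 : (Set.range f).ncard = J := by
      rw [← Set.image_univ, Set.ncard_image_of_injective _ hinj, Set.ncard_univ, Nat.card_eq_fintype_card,
        Fintype.card_fin]
    rw [← h1]
    apply Set.ncard_le_ncard _ hfin
    rintro m ⟨j, rfl⟩
    have hj : (j : ℕ) + 1 ≤ J := j.2
    have h2 : ((j : ℕ) + 1) * K ≤ N - 2 :=
      (Nat.mul_le_mul_right K hj).trans (Nat.div_mul_le_self _ _)
    have h3 : 0 < ((j : ℕ) + 1) * K := by positivity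
    refine ⟨?_, (hf2 j).trans (Nat.sub_le _ _), hf3 j⟩
    have := hf1 j
    omega
  have hJr : √(N : ℝ) / 101 - 2 ≤ J := by
    have h1 : ((N - 2 : ℕ) : ℝ) < (J + 1) * K := by
      have : N - 2 < (J + 1) * K := by
        rw [hJ, mul_comm]
        exact Nat.lt_mul_div_succ _ hKpos
      exact_mod_cast this
    have h2 : (N : ℝ) - 2 ≤ ((N - 2 : ℕ) : ℝ) := by
      have : N ≤ (N - 2) + 2 := by omega
      have : (N : ℝ) ≤ ((N - 2 : ℕ) : ℝ) + 2 := by exact_mod_cast this
      linarith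
    have h3 : (K : ℝ) ≤ 101 * √(N : ℝ) := by linarith
    have h4 : (N : ℝ) - 2 < ((J : ℝ) + 1) * (101 * √(N : ℝ)) := by
      have : ((J : ℝ) + 1) * K ≤ ((J : ℝ) + 1) * (101 * √(N : ℝ)) :=
        mul_le_mul_of_nonneg_left h3 (by positivity)
      linarith
    by_contra hcon
    push Not at hcon
    have h5 : ((J : ℝ) + 1) * (101 * √(N : ℝ)) < (√(N : ℝ) / 101 - 1) * (101 * √(N : ℝ)) :=
      mul_lt_mul_of_pos_right (by linarith) (by positivity)
    have h6 : (√(N : ℝ) / 101 - 1) * (101 * √(N : ℝ)) = N - 101 * √(N : ℝ) := by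
      have : (√(N : ℝ) / 101 - 1) * (101 * √(N : ℝ)) = √(N : ℝ) ^ 2 - 101 * √(N : ℝ) := by ring
      rw [this, hsq]
    rw [h6] at h5
    linarith
  have : (J : ℝ) ≤ (({m | 3 ≤ m ∧ m ≤ N ∧ m ∉ E} : Set ℕ).ncard : ℝ) := by exact_mod_cast hcard
  linarith

/-- **Result.**  `a n < a (n - k)` whenever `k ≥ 100 √n` and `n - k ≥ 2`; hence `E` does not contain
`n - k + 1, …, n`; and `{3, …, N} \ E` has at least `√N / 101 - 2` elements, for every `N`. -/
theorem result :
    (∀ n k : ℕ, 2 ≤ n - k → 100 * √(n : ℝ) ≤ k →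
      a n < a (n - k) ∧ ∃ m, n - k < m ∧ m ≤ n ∧ m ∉ E) ∧
    ∀ N : ℕ, √(N : ℝ) / 101 - 2 ≤ (({m | 3 ≤ m ∧ m ≤ N ∧ m ∉ E} : Set ℕ).ncard : ℝ) :=
  ⟨fun _ _ h2 hk => ⟨a_lt_of_le h2 hk, exists_notMem h2 hk⟩, count⟩

end Pool.Agent.Results.MP_97a6ed_co.Runs
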